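import Pool.Agent.Q202.LT.Def
import Pool.Agent.Y75.EK.Main

set_option autoImplicit false

namespace Pool.Agent.Q202.LT

open MonoidAlgebra Pool.Agent.Y75.SV Pool.Agent.Y75.EK

variable {G : Type} [Group G] {M : Type} [AddCommGroup M] [Module (MonoidAlgebra ℤ G) M]

/-- the complement of the finite part has no finite part -/
theorem no_fin (φ : HermForm G M) (hpos : φ.Pos)
    (hsplit : ∀ x : M, ∃ y ∈ φ.finPart, ∀ z ∈ φ.finPart, φ.val (x - y) z = 0)
    (A : AddSubgroup M) (hA : A.FG) (horth : ∀ a ∈ A, OrthFin φ a)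
    (hsum : ∀ x, OrthFin φ x → ∃ a ∈ A, ∀ b ∈ A, (φ.val (x - a) b).coeff 1 = 0) : A = ⊥ := by
  have hA' : φ.IsSummand A := by
    intro x
    obtain ⟨y, hy, hxy⟩ := hsplit x
    obtain ⟨a, ha, hab⟩ := hsum (x - y) hxy
    refine ⟨a, ha, fun b hb => ?_⟩
    have h1 : (φ.val (x - a) b).coeff 1 = φ.bil (x - a) b := rfl
    have h2 : φ.bil (x - y - a) b = 0 := hab b hb
    have h3 : φ.bil y b = 0 := by
      rw [φ.bil_symm]
      have := horth b hb y hy
      change (φ.val b y).coeff 1 = 0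
      rw [this]; rfl
    rw [h1]
    have h4 : x - a = (x - y - a) + y := by abel
    rw [h4, map_add, AddMonoidHom.add_apply, h2, h3, add_zero]
  rw [eq_bot_iff]
  intro x hx
  have hx' : x ∈ φ.finPart := Submodule.subset_span ⟨A, hA, hA', hx⟩
  by_contra hne
  have h1 := horth x hx x hx'
  have h2 := hpos x (fun h => hne (by simp [h]))
  unfold HermForm.norm at h2
  rw [h1] at h2
  exact lt_irrefl _ h2

theorem even_diag (φ : HermForm G M) (hev : IsEven φ) (x : M) (m : ℤ)
    (hx : φ.val x x = single 1 m) : Even m := by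
  obtain ⟨a, ha⟩ := hev x
  have h := ha 1
  rw [hx, inv_one] at h
  exact ⟨a.coeff 1, by simpa using h⟩

end Pool.Agent.Q202.LT
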