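import Pool.Agent.Y75.EK.Uniq
import Pool.Agent.Y75.EK.Pieces

set_option autoImplicit false

/-! The decompositions of isometric definite forms correspond to each other bijectively. -/

namespace Pool.Agent.Q202.LT

open MonoidAlgebra Pool.Agent.Y75.SV Pool.Agent.Y75.EK

variable {G : Type} [Group G] {M : Type} [AddCommGroup M] [Module (MonoidAlgebra ℤ G) M]
  {φ : HermForm G M} {k : ℕ} {K : Fin k → Subgroup G} {L : Fin k → AddSubgroup M}
  {M' : Type} [AddCommGroup M'] [Module (MonoidAlgebra ℤ G) M']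
  {φ' : HermForm G M'} {k' : ℕ} {K' : Fin k' → Subgroup G} {L' : Fin k' → AddSubgroup M'}

theorem map_shift (α : M ≃ₗ[MonoidAlgebra ℤ G] M') (s : G) (L : AddSubgroup M) :
    (shift s L).map α.toAddEquiv.toAddMonoidHom
      = shift s (L.map α.toAddEquiv.toAddMonoidHom) := by
  ext x
  constructor
  · rintro ⟨_, ⟨y, hy, rfl⟩, rfl⟩
    refine ⟨α y, ⟨y, hy, rfl⟩, ?_⟩
    change (single s 1 : MonoidAlgebra ℤ G) • α y = α ((single s 1 : MonoidAlgebra ℤ G) • y)
    rw [map_smul]
  · rintro ⟨_, ⟨y, hy, rfl⟩, rfl⟩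
    refine ⟨(single s 1 : MonoidAlgebra ℤ G) • y, ⟨y, hy, rfl⟩, ?_⟩
    change α ((single s 1 : MonoidAlgebra ℤ G) • y) = (single s 1 : MonoidAlgebra ℤ G) • α y
    rw [map_smul]

/-- different pieces are not translates of each other -/
theorem index_eq (h : Decomposes φ K L) (hpos : φ.Pos) {i j : Fin k} {g : G}
    (he : L i = shift g (L j)) : i = j := by
  by_contra hne
  obtain ⟨v, hv, hvL⟩ := h.exists_irr hpos i
  have h1 : v ∈ shift g (L j) := he ▸ hvL
  obtain ⟨y, hy, hyv⟩ := (mem_shift _ _ _).1 h1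
  have h2 : φ.bil v (rho g y) = 0 := h.bil_orth i j g (Or.inl hne) hvL hy
  rw [hyv] at h2
  exact absurd h2 (φ.bil_pos hpos v hv.1).ne'

theorem bij (h : Decomposes φ K L) (h' : Decomposes φ' K' L') (hpos : φ.Pos) (hpos' : φ'.Pos)
    (α : M ≃ₗ[MonoidAlgebra ℤ G] M') (hα : ∀ x y, φ'.val (α x) (α y) = φ.val x y) :
    ∃ (σ : Fin k ≃ Fin k') (g : Fin k → G), ∀ i,
      (L i).map α.toAddEquiv.toAddMonoidHom = shift (g i) (L' (σ i)) ∧
      ∀ s, s ∈ K i ↔ (g i)⁻¹ * s * g i ∈ K' (σ i) := by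
  have hα' : ∀ x y, φ.val (α.symm x) (α.symm y) = φ'.val x y := by
    intro x y
    conv_rhs => rw [← α.apply_symm_apply x, ← α.apply_symm_apply y, hα]
  choose f g hf using fun i => h.unique h' hpos hpos' α hα i
  choose f' g' hf' using fun i => h'.unique h hpos' hpos α.symm hα' i
  have hinv : ∀ A : AddSubgroup M,
      (A.map α.toAddEquiv.toAddMonoidHom).map α.symm.toAddEquiv.toAddMonoidHom = A := by
    intro A
    ext x
    constructor
    · rintro ⟨_, ⟨y, hy, rfl⟩, rfl⟩
      have : α.symm (α y) = y := α.symm_apply_apply y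
      change α.symm (α y) ∈ A
      rwa [this]
    · intro hx
      exact ⟨α x, ⟨x, hx, rfl⟩, α.symm_apply_apply x⟩
  have hinv' : ∀ A : AddSubgroup M',
      (A.map α.symm.toAddEquiv.toAddMonoidHom).map α.toAddEquiv.toAddMonoidHom = A := by
    intro A
    ext x
    constructor
    · rintro ⟨_, ⟨y, hy, rfl⟩, rfl⟩
      have : α (α.symm y) = y := α.apply_symm_apply y
      change α (α.symm y) ∈ A
      rwa [this]
    · intro hx
      exact ⟨α.symm x, ⟨x, hx, rfl⟩, α.apply_symm_apply x⟩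
  have h1 : ∀ i, f' (f i) = i := by
    intro i
    have e1 := congrArg (AddSubgroup.map α.symm.toAddEquiv.toAddMonoidHom) (hf i).1
    rw [hinv, map_shift, (hf' (f i)).1, ← shift_mul] at e1
    exact (index_eq h hpos e1).symm
  have h2 : ∀ j, f (f' j) = j := by
    intro j
    have e1 := congrArg (AddSubgroup.map α.toAddEquiv.toAddMonoidHom) (hf' j).1
    rw [hinv', map_shift, (hf (f' j)).1, ← shift_mul] at e1
    exact (index_eq h' hpos' e1).symm
  exact ⟨⟨f, f', h1, h2⟩, g, fun i => hf i⟩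

end Pool.Agent.Q202.LT
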