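import Pool.Agent.Y75.EK.Defs

set_option autoImplicit false

/-!
Even hermitian forms over integral group rings, and the orthogonal complement of the finite part.
-/

namespace Pool.Agent.Q202.LT

open Pool.Agent.Y75.SV

variable {G : Type} [Group G] {M : Type} [AddCommGroup M] [Module (MonoidAlgebra ℤ G) M]

/-- The form is even (it is the symmetrization of a quadratic form): every `φ(x, x)` is `a + ā` for
some `a` in `ℤG`, where `ā` is obtained from `a` by `g ↦ g⁻¹`. -/
def IsEven (φ : HermForm G M) : Prop :=
  ∀ x : M, ∃ a : MonoidAlgebra ℤ G, ∀ g : G, (φ.val x x).coeff g = a.coeff g + a.coeff g⁻¹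

/-- `α` preserves the form. -/
def IsIsometry (φ : HermForm G M) (α : M ≃ₗ[MonoidAlgebra ℤ G] M) : Prop :=
  ∀ x y, φ.val (α x) (α y) = φ.val x y

/-- `x` is orthogonal to the finite part of the form. -/
def OrthFin (φ : HermForm G M) (x : M) : Prop := ∀ z ∈ φ.finPart, φ.val x z = 0

end Pool.Agent.Q202.LT
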